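import Pool.Agent.H7.HD.Targets10
import Pool.Agent.H7.HD.SatI
import Pool.Agent.H7.HD.All

/-!
# Y4: elementary substructures
-/

open Ordinal Cardinal Order Set
open scoped ZFSet

universe u

namespace Pool.Agent.H69.HD9.Y4

open _root_.HD

/-- the structure `{E z | z < ρ}` -/
def MM (E : Ordinal.{u} → ZFSet.{u}) (ρ : Ordinal.{u}) (x : ZFSet.{u}) : Prop :=
  ∃ ζ < ρ, x = E ζ

open scoped Classical in
/-- the witness -/
noncomputable def wit (E : Ordinal.{u} → ZFSet.{u}) (κ : Ordinal.{u}) (φ : Fml)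
    (l : List Ordinal.{u}) : Ordinal.{u} :=
  if h : ∃ z < κ, Sat (MM E κ) φ (cons (E z) fun n => E (l.getD n 0)) then h.choose else 0

theorem wit_lt {E : Ordinal.{u} → ZFSet.{u}} {κ : Ordinal.{u}} (hκ : 0 < κ) (φ : Fml)
    (l : List Ordinal.{u}) : wit E κ φ l < κ := by
  unfold wit
  split_ifs with h
  · exact h.choose_spec.1
  · exact hκ

theorem wit_spec {E : Ordinal.{u} → ZFSet.{u}} {κ : Ordinal.{u}} {φ : Fml}
    {l : List Ordinal.{u}}
    (h : ∃ z < κ, Sat (MM E κ) φ (cons (E z) fun n => E (l.getD n 0))) :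
    Sat (MM E κ) φ (cons (E (wit E κ φ l)) fun n => E (l.getD n 0)) := by
  unfold wit
  rw [dif_pos h]
  exact h.choose_spec.2

theorem exists_list {α β : Type*} (t : α → β) (P : β → Prop) (ht : ∀ b, P b → ∃ a, t a = b) :
    ∀ l : List β, (∀ b ∈ l, P b) → ∃ l' : List α, l'.map t = l := by
  intro l
  induction l with
  | nil => intro _; exact ⟨[], rfl⟩
  | cons b l ih =>
    intro h
    obtain ⟨l', hl'⟩ := ih fun c hc => h c (List.mem_cons_of_mem _ hc)
    obtain ⟨a, ha⟩ := ht b (h b List.mem_cons_self)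
    exact ⟨a :: l', by rw [List.map_cons, ha, hl']⟩

theorem bound {K : Cardinal.{u}} (hK : K.IsRegular) (h0 : ℵ₀ < K) (E : Ordinal.{u} → ZFSet.{u})
    (a : Ordinal.{u}) (ha : a < K.ord) : ∃ s < K.ord, ∀ (φ : Fml) (l : List Ordinal.{u}),
      (∀ x ∈ l, x ≤ a) → wit E K.ord φ l ≤ s := by
  have hlim : IsSuccLimit K.ord := isSuccLimit_ord h0.le
  have hpos : 0 < K.ord := lt_of_le_of_lt zero_le ha
  have hsa : succ a < K.ord := hlim.succ_lt ha
  let X : Type u := (succ a).ToType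
  let t : X → Ordinal.{u} := fun x => ((ToType.mk (o := succ a)).symm x).1
  have ht : ∀ b, b ≤ a → ∃ x : X, t x = b := by
    intro b hb
    refine ⟨ToType.mk ⟨b, lt_succ_of_le hb⟩, ?_⟩
    show ((ToType.mk (o := succ a)).symm (ToType.mk ⟨b, lt_succ_of_le hb⟩)).1 = b
    rw [OrderIso.symm_apply_apply]
  let F : ℕ × List X → Ordinal.{u} := fun p => wit E K.ord (fm p.1) (p.2.map t)
  refine ⟨⨆ p, F p, ?_, ?_⟩
  · refine Ordinal.iSup_lt_of_lt_cof ?_ fun p => wit_lt hpos _ _
    rw [hK.cof_ord]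
    have h1 : #X < K := by
      rw [Cardinal.mk_toType]
      exact Cardinal.lt_ord.1 hsa
    have h2 : #(List X) ≤ max ℵ₀ #X := Cardinal.mk_list_le_max X
    have h3 : #(List X) < K := lt_of_le_of_lt h2 (max_lt h0 h1)
    rw [Cardinal.mk_prod, Cardinal.lift_uzero, Cardinal.mk_nat, Cardinal.lift_aleph0]
    exact Cardinal.mul_lt_of_lt h0.le h0 h3
  · intro φ l hl
    obtain ⟨c, rfl⟩ := fm_surj φ
    obtain ⟨l', rfl⟩ := exists_list t (fun b => b ≤ a) ht l hl
    exact Ordinal.le_iSup F (c, l')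

theorem getD_range (w : ℕ → Ordinal.{u}) (k n : ℕ) (hn : n < k) :
    ((List.range k).map w).getD n 0 = w n := by
  rw [List.getD_eq_getElem _ _ (by simpa using hn)]
  simp

theorem X : T_Y4.{u} := by
  intro K hK h0 E
  have hpos : 0 < K.ord := by
    rw [Cardinal.ord_pos]
    exact lt_trans Cardinal.aleph0_pos h0
  have hlim : IsSuccLimit K.ord := isSuccLimit_ord h0.le
  choose! s hs1 hs2 using bound hK h0 E
  let g : Ordinal.{u} → Ordinal.{u} := fun a => max (succ a) (s a)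
  have hg : ∀ x < K.ord, g x < K.ord := fun x hx => max_lt (hlim.succ_lt hx) (hs1 x hx)
  refine ⟨_, All.ve K hK h0 g hg, ?_⟩
  rintro ξ ⟨hξ0, hξ⟩ hξK φ
  show ∀ v : ℕ → ZFSet.{u}, (∀ n, MM E ξ (v n)) → (Sat (MM E ξ) φ v ↔ Sat (MM E K.ord) φ v)
  induction φ with
  | mem i j => exact fun v _ => Iff.rfl
  | eq i j => exact fun v _ => Iff.rfl
  | neg φ ih => exact fun v hv => not_congr (ih v hv)
  | and φ ψ ih1 ih2 => exact fun v hv => and_congr (ih1 v hv) (ih2 v hv)
  | ex φ ih =>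
    intro v hv
    have hcons : ∀ x, MM E ξ x → ∀ n, MM E ξ (cons x v n) := by
      intro x hx n
      cases n with
      | zero => exact hx
      | succ n => exact hv n
    constructor
    · rintro ⟨x, hx, h⟩
      obtain ⟨ζ, hζ, rfl⟩ := hx
      exact ⟨E ζ, ⟨ζ, hζ.trans hξK, rfl⟩, (ih _ (hcons _ ⟨ζ, hζ, rfl⟩)).1 h⟩
    · rintro ⟨x, ⟨z, hz, rfl⟩, h⟩
      choose w hw1 hw2 using hv
      obtain ⟨k, hk⟩ := sat_fin φ
      set l : List Ordinal.{u} := (List.range k).map w with hl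
      have hagree : ∀ y : ZFSet.{u}, ∀ n < k,
          cons y v n = cons y (fun n => E (l.getD n 0)) n := by
        intro y n hn
        cases n with
        | zero => rfl
        | succ n =>
          show v n = E (l.getD n 0)
          rw [hl, getD_range w k n (by omega), hw2 n]
      have hex : ∃ z < K.ord, Sat (MM E K.ord) φ (cons (E z) fun n => E (l.getD n 0)) :=
        ⟨z, hz, (hk _ _ _ (hagree (E z))).1 h⟩
      have hsp := wit_spec hex
      set a : Ordinal.{u} := (Finset.range k).sup w with ha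
      have haξ : a < ξ := by
        rw [ha, Finset.sup_lt_iff (by simpa using hξ0)]
        exact fun n _ => hw1 n
      have hla : ∀ x ∈ l, x ≤ a := by
        intro x hx
        rw [hl, List.mem_map] at hx
        obtain ⟨n, hn, rfl⟩ := hx
        exact Finset.le_sup (f := w) (Finset.mem_range.2 (List.mem_range.1 hn))
      have hwξ : wit E K.ord φ l < ξ := by
        refine lt_of_le_of_lt (hs2 a (haξ.trans hξK) φ l hla) ?_
        exact lt_of_le_of_lt (le_max_right _ _) (hξ a haξ)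
      refine ⟨E (wit E K.ord φ l), ⟨_, hwξ, rfl⟩, ?_⟩
      rw [ih _ (hcons _ ⟨_, hwξ, rfl⟩)]
      exact (hk _ _ _ (hagree _)).2 hsp

end Pool.Agent.H69.HD9.Y4
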